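import Mathlib
import Pool.Agent.KS6_3.ZR.Tow

/-!
# In a `ℤ_p`-tower already one reciprocal root of `L(χ_n, s)` generates a field with linear ramification

For every `ℤ_p`-tower of curves over a finite field of characteristic `p` with finite ramification
locus:

* for all large `n` and all characters `χ` of order `p ^ n` there is a *single* reciprocal root `α` of
  `L(χ, s)` such that the ramification index of `ℚ_p(α)` over `ℚ_p` is divisible by `p ^ (n - 1)` (by
  `2 ^ (n - 2)` if `p = 2`);
* the number of the reciprocal roots `α` of `L(χ, s)` such that the ramification index of `ℚ_p(α)` is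
  divisible by `p ^ (n - m)` (by `2 ^ (n - m - 1)` if `p = 2`) is, for large `n`, at least
  `D(m) - D(m')`, where `D(m)` is the degree of the `L`-functions of the characters of order `p ^ m`
  and `m' < m` is arbitrary (but not too small). Here `D(m)` tends to infinity.

Idea: an element `σ` of the wild inertia group of a finite Galois extension of `ℚ_p` moves `α` in an
orbit whose length is the `p`-part of the ramification index of `ℚ_p(α)`, or less. Choose `σ` such that
it acts on the roots of unity of order `p ^ n` by raising to the power `1 + p`. If only few reciprocal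
roots have a large orbit, then a suitable power of `σ` fixes all but a few, so
`L(χ, s) / L(χ η, s)` is a quotient of polynomials of small degree for a character `η` of order `p ^ m`.
Minors of the matrix of this relation are formal sums with fixed `p`-adic exponents evaluated at a
`p ^ n`-th root of unity; so for large `n` they vanish identically, and one may replace `χ` by a
character of order `p ^ m'`. But the degrees of `L(χ', s)` and of `L(χ' η, s)` are different.
-/

open PowerSeries Filter IntermediateField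

namespace Pool.Agent.Results.MP_30d976_nt.OneReciprocalRoot

open Pool.Agent.H707R3 Pool.Agent.KS6_3.ZR

/-- For every `ℤ_p`-tower there are a function `D`, tending to infinity, and `N₀` such that for
`n ≥ N₀` and all characters `χ` of order `p ^ n` the function `L(χ, s)` is the product of the factors
`1 - α s` over a multiset `A` of `D n` nonzero numbers, the field generated by `A` has a finite
ramification index over `ℚ_p`, and for at least one `α` in `A` the ramification index of `ℚ_p(α)` (a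
divisor of the one of the field generated by `A`) is divisible by `p ^ (n - 1)` (by `2 ^ (n - 2)` for
`p = 2`). Moreover for `N₀ ≤ m' < m`, all large `n` and all `χ` of order `p ^ n` there are at least
`D m - D m'` such `α` (with multiplicities) for which this index is divisible by `p ^ (n - m)` (by
`2 ^ (n - m - 1)` for `p = 2`). -/
theorem result (p : ℕ) [Fact p.Prime] (k F E : Type) [Field k] [Finite k] [CharP k p]
    [Field F] [Algebra k F] [Field E] [Algebra F E] [Algebra k E] [IsScalarTower k F E]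
    (h : IsZpTower k F E p) :
    ∃ D : ℕ → ℕ, Tendsto D atTop atTop ∧ ∃ N₀ : ℕ,
      (∀ n, N₀ ≤ n → ∀ χ : (E ≃ₐ[F] E) →* ℂ_[p]ˣ, orderOf χ = p ^ n →
        ∃ A : Multiset ℂ_[p], 0 ∉ A ∧ Multiset.card A = D n ∧
          Lfun k χ = (A.map fun α => 1 - C α * X).prod ∧
          0 < ramIdx (IntermediateField.adjoin ℚ_[p] {β : ℂ_[p] | β ∈ A}) ∧
          (∀ α ∈ A, ramIdx (IntermediateField.adjoin ℚ_[p] {α}) ∣
            ramIdx (IntermediateField.adjoin ℚ_[p] {β : ℂ_[p] | β ∈ A})) ∧
          ∃ α ∈ A, p ^ n ∣ ramIdx (IntermediateField.adjoin ℚ_[p] {α}) * p ^ (if p = 2 then 2 else 1)) ∧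
      ∀ m' m, N₀ ≤ m' → m' < m → ∃ N : ℕ, ∀ n, N ≤ n →
        ∀ χ : (E ≃ₐ[F] E) →* ℂ_[p]ˣ, orderOf χ = p ^ n →
        ∀ A : Multiset ℂ_[p], 0 ∉ A → Lfun k χ = (A.map fun α => 1 - C α * X).prod →
          ∃ B : Multiset ℂ_[p], B ≤ A ∧ D m ≤ D m' + Multiset.card B ∧
            ∀ α ∈ B, p ^ n ∣ ramIdx (IntermediateField.adjoin ℚ_[p] {α}) *
              p ^ (if p = 2 then m + 1 else m) := by
  classical
  have hp : p.Prime := Fact.out
  obtain ⟨M, hM, ⟨k₀, b₀, hb₀, hu⟩, hinf⟩ := tower_data h
  obtain ⟨Φ⟩ := h.group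
  obtain ⟨N₁, hN₁⟩ := Lfun_poly h
  obtain ⟨N₂, hN₂⟩ := one_root M hb₀ hu
  have hrec : ∀ A : Multiset ℂ_[p], (A.map fun α => 1 - C α * X).prod = recipProd A := fun _ => rfl
  -- nonzero reciprocal roots
  have hA : ∀ n, N₁ ≤ n → ∀ χ : (E ≃ₐ[F] E) →* ℂ_[p]ˣ, orderOf χ = p ^ n →
      ∃ A : Multiset ℂ_[p], (0 : ℂ_[p]) ∉ A ∧ Lfun k χ = recipProd A := by
    intro n hn χ hχ
    obtain ⟨A, hA⟩ := hN₁ n hn χ hχ
    refine ⟨A.filter fun α => α ≠ 0, ?_, ?_⟩
    · intro h0
      exact (Multiset.mem_filter.1 h0).2 rfl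
    · rw [recipProd_filter, hA]
      rfl
  choose χ₀ hχ₀ using fun n => Pool.Agent.H412R3.ZT.exists_char Φ.toMulEquiv n
  -- the degrees
  choose! A₀ hA₀0 hA₀ using fun n (hn : N₁ ≤ n) => hA n hn (χ₀ n) (hχ₀ n)
  choose z₀ hz₀ hz₀c using fun n => hM n (χ₀ n) (hχ₀ n)
  let D : ℕ → ℕ := fun n => (recipPoly (A₀ n)).natDegree
  have hcoefA : ∀ (A : Multiset ℂ_[p]) (i : ℕ), (recipPoly A).coeff i = coeff i (recipProd A) := by
    intro A i
    rw [← coe_recipPoly, Polynomial.coeff_coe]
  have hdeg : ∀ n, N₁ ≤ n → ∀ χ : (E ≃ₐ[F] E) →* ℂ_[p]ˣ, orderOf χ = p ^ n →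
      ∀ A : Multiset ℂ_[p], Lfun k χ = recipProd A → (recipPoly A).natDegree = D n := by
    intro n hn χ hχ A hAL
    obtain ⟨z, hz, hzc⟩ := hM n χ hχ
    have e1 : ∀ i, (recipPoly A).coeff i = evSum n (M i) z := fun i => by
      rw [hcoefA, ← hAL, hzc]
    have e2 : ∀ i, (recipPoly (A₀ n)).coeff i = evSum n (M i) (z₀ n) := fun i => by
      rw [hcoefA, ← hA₀ n hn, hz₀c]
    apply le_antisymm
    · apply Polynomial.le_natDegree_of_ne_zero
      rw [e2]
      intro h0
      have h1 := evSum_eq_zero_iff (hz₀ n) hz (M (recipPoly A).natDegree) h0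
      rw [← e1] at h1
      exact recipPoly_ne_zero A (Polynomial.leadingCoeff_eq_zero.1 h1)
    · apply Polynomial.le_natDegree_of_ne_zero
      rw [e1]
      intro h0
      have h1 := evSum_eq_zero_iff hz (hz₀ n) (M (recipPoly (A₀ n)).natDegree) h0
      rw [← e2] at h1
      exact recipPoly_ne_zero (A₀ n) (Polynomial.leadingCoeff_eq_zero.1 h1)
  have hdl : ∀ m, (if p = 2 then m + 1 else m) = m + dl p - 1 := by
    intro m
    unfold dl
    split_ifs <;> omega
  refine ⟨D, ?_, max (max N₁ N₂) 1, ?_, ?_⟩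
  · -- the degrees tend to infinity
    rw [tendsto_atTop]
    intro B
    obtain ⟨i, b, hi, hb⟩ := hinf B
    obtain ⟨w, hw⟩ : ∃ w : ℂ_[p], IsPrimitiveRoot w (p ^ 1) := ⟨_, hz₀ 1⟩
    have hne : th ℚ_[p]⟮w⟯ (M i) ≠ 0 := by
      intro h0
      have h1 := congrArg (fun f : AddMonoidAlgebra ℚ_[p]⟮w⟯ ℤ_[p] => f.coeff b) h0
      have h2 : (th ℚ_[p]⟮w⟯ (M i)).coeff b = ((M i b : ℕ) : ℚ_[p]⟮w⟯) := by
        rw [th, AddMonoidAlgebra.coeff_sum, Finsupp.finsetSum_apply, Finset.sum_eq_single b]
        · simp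
        · intro b' _ hb'
          simp [hb']
        · intro h3
          exact absurd hb h3
      rw [h2] at h1
      have h4 : ((M i b : ℕ) : ℚ_[p]⟮w⟯) ≠ 0 := by
        exact_mod_cast Finsupp.mem_support_iff.1 hb
      exact h4 (by simpa using h1)
    obtain ⟨N, hN⟩ := ev_ne_zero one_ne_zero hw _ hne
    filter_upwards [eventually_ge_atTop (max N N₁)] with n hn
    have h5 := hN n ((le_max_left _ _).trans hn) (z₀ n) (hz₀ n)
    rw [evK_th] at h5
    refine hi.trans (Polynomial.le_natDegree_of_ne_zero ?_)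
    rw [hcoefA, ← hA₀ n ((le_max_right _ _).trans hn), hz₀c]
    exact h5
  · intro n hn χ hχ
    have hn1 : N₁ ≤ n := (le_max_left _ _).trans ((le_max_left _ _).trans hn)
    have hn2 : N₂ ≤ n := (le_max_right _ _).trans ((le_max_left _ _).trans hn)
    have hn0 : n ≠ 0 := by
      have := (le_max_right (max N₁ N₂) 1).trans hn
      omega
    obtain ⟨A, h0A, hAL⟩ := hA n hn1 χ hχ
    obtain ⟨z, hz, hzc⟩ := hM n χ hχ
    have hint := Pool.Agent.W90.ZT.isIntegral_Lfun h hn0 χ hχ A hAL
    have hpos := ramIdx_ne_zero A hint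
    have hcard : Multiset.card A = D n := by
      rw [← natDegree_recipPoly A h0A]
      exact hdeg n hn1 χ hχ A hAL
    obtain ⟨α, hα, hd⟩ := hN₂ n hn2 z hz A hint (fun i => by rw [← hAL, hzc])
    refine ⟨A, h0A, hcard, hAL, Nat.pos_of_ne_zero hpos, ?_, α, hα, ?_⟩
    · intro β hβ
      have hle : IntermediateField.adjoin ℚ_[p] {β} ≤
          IntermediateField.adjoin ℚ_[p] {γ : ℂ_[p] | γ ∈ A} :=
        IntermediateField.adjoin.mono _ _ _ (Set.singleton_subset_iff.2 hβ)
      exact ⟨_, (Subgroup.relIndex_mul_relIndex _ _ _ (valGroup_mono bot_le)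
        (valGroup_mono hle)).symm⟩
    · exact hd
  · intro m' m hm' hm
    have hm1 : N₁ ≤ m' := (le_max_left _ _).trans ((le_max_left _ _).trans hm')
    have hm2 : N₁ ≤ m := hm1.trans hm.le
    obtain ⟨N, hN⟩ := many_roots M hm (hz₀ m) (hz₀ m') (recipPoly (A₀ m)) (recipPoly (A₀ m'))
      (recipPoly_ne_zero _) (fun i => by rw [hcoefA, ← hA₀ m hm2, hz₀c])
      (fun i => by rw [hcoefA, ← hA₀ m' hm1, hz₀c])
    refine ⟨max N 1, fun n hn χ hχ A h0A hAL => ?_⟩
    have hn0 : n ≠ 0 := by
      have := (le_max_right N 1).trans hn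
      omega
    obtain ⟨z, hz, hzc⟩ := hM n χ hχ
    have hint := Pool.Agent.W90.ZT.isIntegral_Lfun h hn0 χ hχ A hAL
    refine ⟨A.filter fun α => p ^ n ∣ ee α * p ^ (m + dl p - 1), Multiset.filter_le _ _,
      hN n ((le_max_left _ _).trans hn) z hz A hint (fun i => by rw [← hrec, ← hAL, hzc]), ?_⟩
    intro α hα
    rw [hdl]
    exact (Multiset.mem_filter.1 hα).2

end Pool.Agent.Results.MP_30d976_nt.OneReciprocalRoot
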